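import Mathlib
import Pool.Agent.R775.W1

/-! Rational approximation of real vectors fixed by integer matrices. -/

open scoped Topology
open Set Metric

noncomputable section

namespace Pool.Agent.U924.Wex

/-- A real vector is a limit of vectors with rational direction which are fixed by all the integer
matrices fixing the given vector. -/
theorem exists_fixed_near {m : ℕ} {w : Fin m → ℝ} (hw : w ≠ 0) {ε : ℝ} (hε : 0 < ε) :
    ∃ (k : Fin m → ℤ) (s : ℝ), 0 < s ∧ ‖s • (fun i => (k i : ℝ)) - w‖ < ε ∧
      ∀ B : Matrix (Fin m) (Fin m) ℤ, (B.map (Int.cast : ℤ → ℝ)).mulVec w = w →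
        B.mulVec k = k := by
  classical
  set S : Submodule ℚ ℝ := Submodule.span ℚ (range w) with hS
  have hfd : Module.Finite ℚ S := by
    rw [hS]
    exact Module.Finite.span_of_finite ℚ (finite_range w)
  set r := Module.finrank ℚ S with hr
  set b : Module.Basis (Fin r) ℚ S := Module.finBasis ℚ S with hb
  have hmem : ∀ i, w i ∈ S := fun i => Submodule.subset_span ⟨i, rfl⟩
  set q : Fin r → Fin m → ℚ := fun j i => b.repr ⟨w i, hmem i⟩ j with hq
  have hexp : ∀ i, w i = ∑ j, (b j : ℝ) * (q j i : ℝ) := by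
    intro i
    have h1 := b.sum_repr ⟨w i, hmem i⟩
    have h2 : ((∑ j, (b.repr ⟨w i, hmem i⟩) j • b j : S) : ℝ) = w i := congrArg (Subtype.val) h1
    rw [← h2]
    simp only [AddSubmonoidClass.coe_finsetSum, SetLike.val_smul]
    refine Finset.sum_congr rfl fun j _ => ?_
    rw [Rat.smul_def, mul_comm]
  have hr0 : 0 < r := by
    rcases Nat.eq_zero_or_pos r with h | h
    · exfalso
      apply hw
      ext i
      rw [hexp i]
      have : IsEmpty (Fin r) := by rw [h]; infer_instance
      simp
    · exact h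
  -- a common denominator
  obtain ⟨D, hD, n, hn⟩ : ∃ (D : ℕ), 0 < D ∧ ∃ n : Fin r → Fin m → ℤ,
      ∀ j i, (n j i : ℚ) = D * q j i := by
    refine ⟨∏ p : Fin r × Fin m, (q p.1 p.2).den, Finset.prod_pos fun p _ => (q p.1 p.2).den_pos,
      ?_⟩
    have h1 : ∀ j i, ∃ e : ℤ, (e : ℚ) =
        ((∏ p : Fin r × Fin m, (q p.1 p.2).den : ℕ) : ℚ) * q j i := by
      intro j i
      obtain ⟨c, hc⟩ := Finset.dvd_prod_of_mem (fun p : Fin r × Fin m => (q p.1 p.2).den)
        (Finset.mem_univ (j, i))
      refine ⟨c * (q j i).num, ?_⟩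
      rw [hc]
      have h2 : ((q j i).den : ℚ) * q j i = ((q j i).num : ℚ) := Rat.den_mul_eq_num _
      push_cast
      rw [← h2]
      ring
    choose n hn using h1
    exact ⟨n, hn⟩
  -- fixed vectors
  have hfix : ∀ B : Matrix (Fin m) (Fin m) ℤ, (B.map (Int.cast : ℤ → ℝ)).mulVec w = w →
      ∀ j, B.mulVec (n j) = n j := by
    intro B hB j
    have h1 : ∀ i, ∑ l, (B i l : ℚ) * q j l = q j i := by
      intro i
      have h2 : (∑ l, (B i l : ℚ) • (⟨w l, hmem l⟩ : S)) = ⟨w i, hmem i⟩ := by
        apply Subtype.ext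
        simp only [AddSubmonoidClass.coe_finsetSum, SetLike.val_smul]
        have h3 := congrFun hB i
        simp only [Matrix.mulVec, dotProduct, Matrix.map_apply] at h3
        rw [← h3]
        refine Finset.sum_congr rfl fun l _ => ?_
        rw [Rat.smul_def]
        push_cast
        rfl
      have h4 := congrArg (fun z => b.repr z j) h2
      simp only [map_sum, map_smul, Finsupp.coe_finsetSum, Finset.sum_apply, Finsupp.smul_apply,
        smul_eq_mul] at h4
      exact h4
    ext i
    have h5 : ((B.mulVec (n j) i : ℤ) : ℚ) = (n j i : ℚ) := by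
      simp only [Matrix.mulVec, dotProduct]
      push_cast
      rw [hn j i, ← h1 i, Finset.mul_sum]
      refine Finset.sum_congr rfl fun l _ => ?_
      rw [hn j l]
      ring
    exact_mod_cast h5
  -- the linear map
  set L : (Fin r → ℝ) → (Fin m → ℝ) := fun x i => ∑ j, x j * (q j i : ℝ) with hL
  have hLc : Continuous L := by
    rw [hL]
    fun_prop
  have hLb : L (fun j => (b j : ℝ)) = w := by
    ext i
    exact (hexp i).symm
  have hO : L ⁻¹' ball w ε ∈ 𝓝 (fun j => (b j : ℝ)) :=
    hLc.continuousAt.preimage_mem_nhds (by rw [hLb]; exact ball_mem_nhds w hε)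
  obtain ⟨e, s, he, hs, hes⟩ := Pool.Agent.R775.exists_int_mem hr0 hO
  have hDr : (0:ℝ) < D := by exact_mod_cast hD
  refine ⟨fun i => ∑ j, e j * n j i, s / D, by positivity, ?_, ?_⟩
  · have h1 : (s / (D:ℝ)) • (fun i => ((∑ j, e j * n j i : ℤ) : ℝ)) =
        L (s • (fun j => (e j : ℝ))) := by
      ext i
      simp only [hL, Pi.smul_apply, smul_eq_mul]
      push_cast
      rw [Finset.mul_sum]
      refine Finset.sum_congr rfl fun j _ => ?_
      have h2 : ((n j i : ℤ) : ℝ) = (D:ℝ) * (q j i : ℝ) := by
        have := hn j i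
        exact_mod_cast congrArg (fun z : ℚ => (z : ℝ)) this
      rw [h2]
      field_simp
    rw [h1]
    have h3 := hes
    rw [mem_preimage, mem_ball, dist_eq_norm] at h3
    exact h3
  · intro B hB
    have h1 := hfix B hB
    ext i
    simp only [Matrix.mulVec, dotProduct]
    have h2 : ∀ j, ∑ l, B i l * n j l = n j i := fun j => congrFun (h1 j) i
    calc ∑ l, B i l * ∑ j, e j * n j l = ∑ l, ∑ j, e j * (B i l * n j l) := by
          refine Finset.sum_congr rfl fun l _ => ?_
          rw [Finset.mul_sum]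
          refine Finset.sum_congr rfl fun j _ => ?_
          ring
      _ = ∑ j, ∑ l, e j * (B i l * n j l) := Finset.sum_comm
      _ = ∑ j, e j * n j i := by
          refine Finset.sum_congr rfl fun j _ => ?_
          rw [← Finset.mul_sum, h2]

end Pool.Agent.U924.Wex
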