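import Mathlib
import Pool.Agent.R775.W14
import Pool.Agent.U924.Wex.Rat

/-! Closed Reeb orbits from isolated extremal sets of real momenta. -/

open scoped Topology ContDiff Manifold
open Set Metric Bundle Pool.Agent.Helper186 Pool.Agent.H826R2.Wein Pool.Agent.TH607
  Pool.Agent.R775

noncomputable section

namespace Pool.Agent.U924.Wex

set_option linter.unusedSectionVars false

universe u

section loc

variable {E : Type u} [NormedAddCommGroup E] [NormedSpace ℝ E] [FiniteDimensional ℝ E]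
  {P : Type*} [TopologicalSpace P] [ChartedSpace E P] [IsManifold 𝓘(ℝ, E) ∞ P]

/-- At a local maximum the differential vanishes. -/
lemma dForm_eq_zero_of_isLocalMax {f : P → ℝ} {x : P} (h : IsLocalMax f x) :
    dForm 𝓘(ℝ, E) f x = 0 := by
  by_cases hd : MDifferentiableAt 𝓘(ℝ, E) 𝓘(ℝ, ℝ) f x
  · have h1 : IsLocalMax (writtenInExtChartAt 𝓘(ℝ, E) 𝓘(ℝ, ℝ) x f) (extChartAt 𝓘(ℝ, E) x x) := by
      have h3 : ContinuousAt (extChartAt 𝓘(ℝ, E) x).symm (extChartAt 𝓘(ℝ, E) x x) :=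
        continuousAt_extChartAt_symm x
      have h4 : ∀ᶠ y in 𝓝 (extChartAt 𝓘(ℝ, E) x x), f ((extChartAt 𝓘(ℝ, E) x).symm y) ≤ f x := by
        refine h3.eventually (p := fun z => f z ≤ f x) ?_
        rw [extChartAt_to_inv]
        exact h
      filter_upwards [h4] with y hy
      have e : writtenInExtChartAt 𝓘(ℝ, E) 𝓘(ℝ, ℝ) x f (extChartAt 𝓘(ℝ, E) x x) = f x := by
        simp [writtenInExtChartAt, chartAt_self_eq]
      show writtenInExtChartAt 𝓘(ℝ, E) 𝓘(ℝ, ℝ) x f y ≤ _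
      rw [e]
      exact hy
    have h2 := h1.fderiv_eq_zero
    show mfderiv 𝓘(ℝ, E) 𝓘(ℝ, ℝ) f x = 0
    rw [hd.mfderiv]
    have e : range (𝓘(ℝ, E) : E → E) = univ := by simp
    rw [e, fderivWithin_univ, h2]
    rfl
  · exact mfderiv_zero_of_not_mdifferentiableAt hd

end loc

variable {E : Type u} [NormedAddCommGroup E] [NormedSpace ℝ E] [FiniteDimensional ℝ E]
  {M : Type*} [TopologicalSpace M] [ChartedSpace E M] [IsManifold 𝓘(ℝ, E) ∞ M]
  {P : Type*} [TopologicalSpace P] [ChartedSpace E P] [IsManifold 𝓘(ℝ, E) ∞ P]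
  {m : ℕ} {q : P → M} {Γ : Type*} [Group Γ] [MulAction Γ P]
  {α : (x : M) → TangentSpace 𝓘(ℝ, E) x →L[ℝ] ℝ}
  {R : (x : M) → TangentSpace 𝓘(ℝ, E) x}

/-- the real matrix of an integer matrix -/
abbrev re (B : Matrix (Fin m) (Fin m) ℤ) : Matrix (Fin m) (Fin m) ℝ := B.map (Int.cast : ℤ → ℝ)

/-- the data: an open set `N`, invariant under the group `Δ` of deck transformations fixing `w`,
compact modulo `Δ`, on which the momentum of `w` is larger than on its frontier -/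
structure Iso (q : P → M) (α : (x : M) → TangentSpace 𝓘(ℝ, E) x →L[ℝ] ℝ)
    (A : TS (pullForm 𝓘(ℝ, E) 𝓘(ℝ, E) q α) m) (w : Fin m → ℝ) (Δ : Subgroup Γ) (N K : Set P)
    (c : ℝ) : Prop where
  fix : ∀ δ ∈ Δ, ∃ B : Matrix (Fin m) (Fin m) ℤ,
    (∀ (θ : Fin m → ℝ) (x : P), δ • A.act θ x = A.act ((re B).mulVec θ) (δ • x)) ∧
    (re B).mulVec w = w
  isOpen : IsOpen N
  nonempty : N.Nonempty
  inv : ∀ δ ∈ Δ, ∀ x ∈ N, δ • x ∈ N
  above : ∀ x ∈ N, c < A.H w x
  frontier : ∀ x ∈ frontier N, A.H w x ≤ c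
  compact : IsCompact K
  cover : ∀ x ∈ N, ∃ δ ∈ Δ, δ • x ∈ K
  nz : ∀ x ∈ N, A.H w x = 0 → (A.X w x : E) ≠ 0

lemma H_inv (hq : RegCover (E := E) q Γ) (A : TS (pullForm 𝓘(ℝ, E) 𝓘(ℝ, E) q α) m)
    {γ : Γ} {B : Matrix (Fin m) (Fin m) ℤ}
    (hB : ∀ (θ : Fin m → ℝ) (x : P), γ • A.act θ x = A.act ((re B).mulVec θ) (γ • x))
    {κ : Fin m → ℝ} (hκ : (re B).mulVec κ = κ) (x : P) : A.H κ (γ • x) = A.H κ x := by
  refine A.H_push (κ := κ) (κ' := κ) (g := fun x => γ • x) (hq.smooth γ) ?_ (hq.strict α γ) x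
  intro t x
  show γ • A.act (t • κ) x = A.act (t • κ) (γ • x)
  rw [hB, Matrix.mulVec_smul, hκ]

/-- **Main step.** -/
theorem exists_crit_near (hα : IsContact α) (hR : IsReeb α R) (hq : RegCover (E := E) q Γ)
    {A : TS (pullForm 𝓘(ℝ, E) 𝓘(ℝ, E) q α) m} {w : Fin m → ℝ} {Δ : Subgroup Γ} {N K : Set P}
    {c : ℝ} (h : Iso q α A w Δ N K c) :
    ∃ μ > (0:ℝ), ∀ ε > (0:ℝ), ∃ (k : Fin m → ℤ) (s : ℝ), 0 < s ∧
      ‖s • (fun i => (k i : ℝ)) - w‖ < ε ∧ ∃ x ∈ N,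
        dForm 𝓘(ℝ, E) (A.H (s • (fun i => (k i : ℝ)))) x = 0 ∧
        μ ≤ |A.H (s • (fun i => (k i : ℝ))) x| := by
  have hcP := hq.isContact_pull hα
  have hRP := hq.isReeb_lift hα hR
  have hHc : ∀ κ, Continuous (A.H κ) := fun κ => (A.smooth_H hcP.smooth κ).continuous
  have hcl : ∀ x ∈ closure N, x ∉ N → x ∈ frontier N := by
    intro x hx hxN
    rw [h.isOpen.frontier_eq]
    exact ⟨hx, hxN⟩
  have hw0 : w ≠ 0 := by
    rintro rfl
    obtain ⟨x, hx⟩ := h.nonempty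
    have e1 : A.X 0 x = 0 := by
      have := A.X_smul 0 0 x
      rw [zero_smul, zero_smul] at this
      exact this
    have e2 : A.H 0 x = 0 := by
      have := A.H_smul 0 0 x
      rw [zero_smul, zero_mul] at this
      exact this
    exact h.nz x hx e2 e1
  -- the maximum
  have hKc : IsCompact (K ∩ closure N) := h.compact.inter_right isClosed_closure
  obtain ⟨x₀, hx₀⟩ := h.nonempty
  obtain ⟨δ₀, hδ₀, hδK⟩ := h.cover x₀ hx₀
  have hmem₀ : δ₀ • x₀ ∈ K ∩ closure N := ⟨hδK, subset_closure (h.inv _ hδ₀ _ hx₀)⟩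
  obtain ⟨y, hyK, hymax⟩ := hKc.exists_isMaxOn ⟨_, hmem₀⟩ (hHc w).continuousOn
  have hyc : c < A.H w y :=
    (h.above _ (h.inv _ hδ₀ _ hx₀)).trans_le (hymax hmem₀)
  have hyN : y ∈ N := by
    by_contra hy
    exact absurd (h.frontier y (hcl y hyK.2 hy)) (not_le.2 hyc)
  have hcrit : ∀ (κ : Fin m → ℝ), (∀ δ ∈ Δ, ∀ x, A.H κ (δ • x) = A.H κ x) → ∀ z ∈ N,
      (∀ z' ∈ K ∩ closure N, A.H κ z' ≤ A.H κ z) → dForm 𝓘(ℝ, E) (A.H κ) z = 0 := by
    intro κ hκ z hzN hz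
    apply dForm_eq_zero_of_isLocalMax
    filter_upwards [h.isOpen.mem_nhds hzN] with x hx
    obtain ⟨δ, hδ, hδx⟩ := h.cover x hx
    rw [← hκ δ hδ x]
    exact hz _ ⟨hδx, subset_closure (h.inv _ hδ _ hx)⟩
  have hinvw : ∀ δ ∈ Δ, ∀ x, A.H w (δ • x) = A.H w x := by
    intro δ hδ x
    obtain ⟨B, hB, hBw⟩ := h.fix δ hδ
    exact H_inv hq A hB hBw x
  have hyd := hcrit w hinvw y hyN (fun z hz => hymax hz)
  set L := A.H w y with hL
  have hL0 : L ≠ 0 := by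
    intro h0
    have h1 := A.X_eq_of_crit hcP hRP hyd
    rw [← hL, h0, zero_smul] at h1
    exact h.nz y hyN h0 h1
  refine ⟨|L| / 2, by positivity, fun ε hε => ?_⟩
  set η := min ((L - c) / 2) (|L| / 2) with hη
  have hη0 : 0 < η := lt_min (by linarith) (by positivity)
  -- uniform bound on the compact set
  obtain ⟨b, hb0, hb⟩ : ∃ b : ℝ, 0 < b ∧ ∀ (κ : Fin m → ℝ), ∀ x ∈ K ∩ closure N,
      |A.H κ x| ≤ b * ‖κ‖ := by
    have h1 : Continuous (fun x => ∑ i, |muS A x i|) := by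
      have h2 : ∀ i, Continuous (fun x => muS A x i) := fun i => hHc _
      fun_prop
    obtain ⟨b, hb⟩ := (hKc.image h1).bddAbove
    refine ⟨max b 1, by positivity, fun κ x hx => ?_⟩
    rw [HS_eq_sum]
    calc |∑ i, κ i * muS A x i| ≤ ∑ i, |κ i * muS A x i| := Finset.abs_sum_le_sum_abs _ _
      _ ≤ ∑ i, ‖κ‖ * |muS A x i| := by
          refine Finset.sum_le_sum fun i _ => ?_
          rw [abs_mul]
          exact mul_le_mul_of_nonneg_right (norm_le_pi_norm κ i) (abs_nonneg _)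
      _ = ‖κ‖ * ∑ i, |muS A x i| := by rw [Finset.mul_sum]
      _ ≤ ‖κ‖ * max b 1 :=
          mul_le_mul_of_nonneg_left ((hb (mem_image_of_mem _ hx)).trans (le_max_left _ _))
            (norm_nonneg _)
      _ = max b 1 * ‖κ‖ := mul_comm _ _
  obtain ⟨k, s, hs, hks, hfix⟩ := exists_fixed_near hw0 (ε := min ε (η / (2 * b)))
    (lt_min hε (by positivity))
  set v : Fin m → ℝ := s • (fun i => (k i : ℝ)) with hv
  have hclose : ∀ x ∈ K ∩ closure N, |A.H v x - A.H w x| < η := by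
    intro x hx
    have e1 : A.H v x - A.H w x = A.H (v - w) x := by
      have e2 := A.H_add v ((-1 : ℝ) • w) x
      rw [A.H_smul (-1) w x, neg_one_smul ℝ w, ← sub_eq_add_neg v w] at e2
      rw [e2]; ring
    rw [e1]
    have h2 : ‖v - w‖ < η / (2 * b) := hks.trans_le (min_le_right _ _)
    have h3 : b * ‖v - w‖ < b * (η / (2 * b)) := mul_lt_mul_of_pos_left h2 hb0
    have h4 : b * (η / (2 * b)) = η / 2 := by field_simp
    have := hb (v - w) x hx
    linarith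
  have hinvv : ∀ δ ∈ Δ, ∀ x, A.H v (δ • x) = A.H v x := by
    intro δ hδ x
    obtain ⟨B, hB, hBw⟩ := h.fix δ hδ
    have h1 := hfix B hBw
    refine H_inv hq A hB ?_ x
    rw [hv, Matrix.mulVec_smul]
    congr 1
    ext i
    have h2 := congrFun h1 i
    simp only [Matrix.mulVec, dotProduct, Matrix.map_apply] at h2 ⊢
    exact_mod_cast h2
  obtain ⟨z, hzK, hzmax⟩ := hKc.exists_isMaxOn ⟨_, hmem₀⟩ (hHc v).continuousOn
  have hz1 : A.H v y ≤ A.H v z := hzmax hyK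
  have hyv := (abs_lt.1 (hclose y hyK)).1
  have hzN : z ∈ N := by
    by_contra hz
    have h1 := h.frontier z (hcl z hzK.2 hz)
    have h2 := (abs_lt.1 (hclose z hzK)).2
    have h3 : η ≤ (L - c) / 2 := min_le_left _ _
    linarith
  refine ⟨k, s, hs, hks.trans_le (min_le_left _ _), z, hzN, hcrit v hinvv z hzN
    (fun z' hz' => hzmax hz'), ?_⟩
  -- the value
  have h3 : η ≤ |L| / 2 := min_le_right _ _
  rcases lt_or_gt_of_ne hL0 with hneg | hpos
  · have h4 : A.H w z ≤ L := hymax hzK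
    have h5 := (abs_lt.1 (hclose z hzK)).2
    have h6 : |L| = -L := abs_of_neg hneg
    have h7 : A.H v z < 0 := by linarith
    rw [abs_of_neg h7]
    linarith
  · have h6 : |L| = L := abs_of_pos hpos
    have h7 : 0 < A.H v z := by linarith
    rw [abs_of_pos h7]
    linarith

end Pool.Agent.U924.Wex
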