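import Mathlib
import Pool.Agent.U924.Wex.Core

/-! Closed Reeb orbits from isolated extremal sets of real momenta: the orbits. -/

open scoped Topology ContDiff Manifold
open Set Metric Bundle Pool.Agent.Helper186 Pool.Agent.H826R2.Wein Pool.Agent.TH607
  Pool.Agent.R775

noncomputable section

namespace Pool.Agent.U924.Wex

set_option linter.unusedSectionVars false

universe u

variable {E : Type u} [NormedAddCommGroup E] [NormedSpace ℝ E] [FiniteDimensional ℝ E]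
  {M : Type*} [TopologicalSpace M] [ChartedSpace E M] [IsManifold 𝓘(ℝ, E) ∞ M]
  {P : Type*} [TopologicalSpace P] [ChartedSpace E P] [IsManifold 𝓘(ℝ, E) ∞ P]
  {m : ℕ} {q : P → M} {Γ : Type*} [Group Γ] [MulAction Γ P]
  {α : (x : M) → TangentSpace 𝓘(ℝ, E) x →L[ℝ] ℝ}
  {R : (x : M) → TangentSpace 𝓘(ℝ, E) x}

/-- `C` is a closed orbit of the Reeb field contained in `U` -/
def ClosedIn (R : (x : M) → TangentSpace 𝓘(ℝ, E) x) (U : Set M) (C : Set M) : Prop :=
  (∃ (c : ℝ → M) (T : ℝ), (0 < T ∧ IsMIntegralCurve (I := 𝓘(ℝ, E)) c R ∧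
    ∀ t, c (t + T) = c t) ∧ C = range c) ∧ C ⊆ U

/-- the torus orbits stay in `N` -/
lemma act_mem {A : TS (pullForm 𝓘(ℝ, E) 𝓘(ℝ, E) q α) m} {w : Fin m → ℝ} {Δ : Subgroup Γ}
    {N K : Set P} {c : ℝ} (h : Iso q α A w Δ N K c) {x : P} (hx : x ∈ N) (θ : Fin m → ℝ) :
    A.act θ x ∈ N := by
  set g : ℝ → P := fun t => A.act (t • θ) x with hg
  have hgc : Continuous g := (A.smooth_left x).continuous.comp (by fun_prop)
  have h1 : g ⁻¹' N = g ⁻¹' closure N := by
    ext t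
    constructor
    · exact fun ht => subset_closure ht
    · intro ht
      by_contra hn
      have h2 : g t ∈ frontier N := by
        rw [h.isOpen.frontier_eq]
        exact ⟨ht, hn⟩
      have h3 := h.frontier _ h2
      have h4 : A.H w (g t) = A.H w x := A.H_act w _ x
      have h5 := h.above x hx
      linarith
  have h2 : IsClopen (g ⁻¹' N) :=
    ⟨by rw [h1]; exact isClosed_closure.preimage hgc, h.isOpen.preimage hgc⟩
  have h3 : g ⁻¹' N = univ := by
    refine h2.eq_univ ⟨0, ?_⟩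
    show A.act ((0:ℝ) • θ) x ∈ N
    rw [zero_smul, A.zero]
    exact hx
  have h4 : (1:ℝ) ∈ g ⁻¹' N := by rw [h3]; trivial
  have h5 : g 1 ∈ N := h4
  simpa [hg] using h5

/-- **Main theorem.** -/
theorem closed_orbits (hα : IsContact α) (hR : IsReeb α R) (hq : RegCover (E := E) q Γ)
    {A : TS (pullForm 𝓘(ℝ, E) 𝓘(ℝ, E) q α) m} (hN : A.Norm Γ) {w : Fin m → ℝ}
    {Δ : Subgroup Γ} {N K : Set P} {c : ℝ} (h : Iso q α A w Δ N K c) :
    {C : Set M | ClosedIn R (q '' N) C}.Nonempty ∧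
      ((∀ x ∈ N, ∀ κ : Fin m → ℝ, (A.X κ x : E) = 0 → κ = 0) →
        (∀ (k : Fin m → ℤ) (a : ℝ), w ≠ a • (fun i => (k i : ℝ))) →
        {C : Set M | ClosedIn R (q '' N) C}.Infinite) := by
  have hcP := hq.isContact_pull hα
  have hRP := hq.isReeb_lift hα hR
  obtain ⟨μ, hμ, hex⟩ := exists_crit_near hα hR hq h
  have hex' : ∀ n : ℕ, ∃ (k : Fin m → ℤ) (s : ℝ) (x : P), 0 < s ∧
      ‖s • (fun i => (k i : ℝ)) - w‖ < 1 / ((n:ℝ) + 1) ∧ x ∈ N ∧
        dForm 𝓘(ℝ, E) (A.H (s • (fun i => (k i : ℝ)))) x = 0 ∧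
        μ ≤ |A.H (s • (fun i => (k i : ℝ))) x| := by
    intro n
    obtain ⟨k, s, h1, h2, x, h3, h4, h5⟩ := hex (1 / ((n:ℝ) + 1)) (by positivity)
    exact ⟨k, s, x, h1, h2, h3, h4, h5⟩
  choose k s x hs hks hxN hcr hval using hex'
  set κ : ℕ → Fin m → ℝ := fun n i => (k n i : ℝ) with hκ
  set v : ℕ → Fin m → ℝ := fun n => s n • κ n with hv
  set H : ℕ → ℝ := fun n => A.H (v n) (x n) with hH
  have hH0 : ∀ n, H n ≠ 0 := by
    intro n h0
    have h1 : μ ≤ |H n| := hval n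
    rw [h0, abs_zero] at h1
    linarith
  set b : ℕ → ℝ := fun n => (H n)⁻¹ * s n with hb
  have hb0 : ∀ n, b n ≠ 0 := fun n => mul_ne_zero (inv_ne_zero (hH0 n)) (hs n).ne'
  set f : ℕ → Fin m → ℝ := fun n => b n • κ n with hf
  have hf' : ∀ n, f n = (H n)⁻¹ • v n := fun n => by
    simp only [hf, hb, hv, smul_smul]
  have hfd : ∀ n, dForm 𝓘(ℝ, E) (A.H (f n)) (x n) = 0 := by
    intro n
    rw [hf', dHS_smul A hcP.smooth, hcr]
    exact smul_zero _
  have hf1 : ∀ n, A.H (f n) (x n) = 1 := by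
    intro n
    rw [hf', A.H_smul]
    exact inv_mul_cancel₀ (hH0 n)
  have hfr : ∀ n, IsFreq R q A (x n) (f n) := fun n =>
    isFreq_of_crit hα hR hq A (hfd n) (hf1 n)
  set c : ℕ → ℝ → M := fun n t => q (A.act (t • f n) (x n)) with hc
  have hmem : ∀ n, range (c n) ∈ {C : Set M | ClosedIn R (q '' N) C} := by
    intro n
    refine ⟨⟨c n, |(b n)⁻¹|, ⟨abs_pos.2 (inv_ne_zero (hb0 n)), hfr n, ?_⟩, rfl⟩, ?_⟩
    · have hper1 : ∀ (e : ℤ) (z : P), A.act ((e:ℝ) • κ n) z = z := by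
        intro e z
        have h1 : (e:ℝ) • κ n = fun l => ((e * k n l : ℤ) : ℝ) := by
          ext l; simp [hκ]
        rw [h1]
        exact A.period (fun l => e * k n l) z
      intro t
      show q (A.act ((t + |(b n)⁻¹|) • f n) (x n)) = q (A.act (t • f n) (x n))
      congr 1
      obtain ⟨e, he⟩ : ∃ e : ℤ, |(b n)⁻¹| • f n = (e:ℝ) • κ n := by
        rcases abs_choice ((b n)⁻¹) with h1 | h1
        · refine ⟨1, ?_⟩
          rw [h1]
          show (b n)⁻¹ • (b n • κ n) = _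
          rw [smul_smul, inv_mul_cancel₀ (hb0 n)]
          simp
        · refine ⟨-1, ?_⟩
          rw [h1]
          show (-(b n)⁻¹) • (b n • κ n) = _
          rw [smul_smul, neg_mul, inv_mul_cancel₀ (hb0 n)]
          simp
      rw [add_smul, he, A.add, hper1]
    · rintro _ ⟨t, rfl⟩
      exact ⟨_, act_mem h (hxN n) _, rfl⟩
  refine ⟨⟨_, hmem 0⟩, fun hfree hirr hfin => ?_⟩
  set 𝒪 := {C : Set M | ClosedIn R (q '' N) C} with h𝒪
  have : Finite 𝒪 := hfin
  obtain ⟨C₀, hC₀⟩ := Finite.exists_infinite_fiber (fun n : ℕ => (⟨range (c n), hmem n⟩ : 𝒪))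
  have hC₀' : ((fun n : ℕ => (⟨range (c n), hmem n⟩ : 𝒪)) ⁻¹' {C₀}).Infinite :=
    infinite_coe_iff.1 hC₀
  set S := (fun n : ℕ => (⟨range (c n), hmem n⟩ : 𝒪)) ⁻¹' {C₀} with hS
  obtain ⟨n₀, hn₀⟩ := hC₀'.nonempty
  have hrange : ∀ n ∈ S, range (c n) = range (c n₀) := by
    intro n hn
    have h1 : (⟨range (c n), hmem n⟩ : 𝒪) = C₀ := hn
    have h2 : (⟨range (c n₀), hmem n₀⟩ : 𝒪) = C₀ := hn₀
    exact congrArg Subtype.val (h1.trans h2.symm)
  -- the vectors `v n` are bounded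
  have hvb : ∀ n, ‖v n‖ ≤ ‖w‖ + 1 := by
    intro n
    have h1 : ‖v n - w‖ < 1 / ((n:ℝ) + 1) := hks n
    have h2 : 1 / ((n:ℝ) + 1) ≤ 1 := by
      rw [div_le_one (by positivity)]
      have : (0:ℝ) ≤ n := Nat.cast_nonneg n
      linarith
    have h3 : v n = (v n - w) + w := by abel
    calc ‖v n‖ = ‖(v n - w) + w‖ := by rw [← h3]
      _ ≤ ‖v n - w‖ + ‖w‖ := norm_add_le _ _
      _ ≤ ‖w‖ + 1 := by linarith
  have hfb : ∀ n, ‖f n‖ ≤ (‖w‖ + 1) / μ := by
    intro n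
    rw [hf', norm_smul, norm_inv, Real.norm_eq_abs, inv_mul_eq_div]
    exact div_le_div₀ (by positivity) (hvb n) hμ (hval n)
  -- the frequencies of the orbits in the same class
  have hfB : ∀ n ∈ S, ∃ k' : Fin m → ℤ, f n = b n₀ • (fun l => (k' l : ℝ)) := by
    intro n hn
    have h1 : q (x n) ∈ range (c n₀) := by
      rw [← hrange n hn]
      refine ⟨0, ?_⟩
      show q (A.act ((0:ℝ) • f n) (x n)) = q (x n)
      rw [zero_smul, A.zero]
    obtain ⟨t, ht⟩ := h1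
    obtain ⟨γ, hγ⟩ := (hq.fibre _ _).1 (show q (A.act (t • f n₀) (x n₀)) = q (x n) from ht)
    obtain ⟨B, hB⟩ := hN.norm γ
    have h2 : IsFreq R q A (x n) ((B.map (Int.cast : ℤ → ℝ)).mulVec (f n₀)) := by
      rw [← hγ]
      exact isFreq_smul hq A (isFreq_act hα hR hq A (hfr n₀) _) hB
    obtain ⟨h3, h4⟩ := crit_of_isFreq hα hR hq A h2
    have h5 : (B.map (Int.cast : ℤ → ℝ)).mulVec (f n₀) = f n := by
      rw [← sub_eq_zero]
      apply hfree _ (hxN n)
      have h6 := A.X_eq_of_crit hcP hRP h4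
      have h7 := A.X_eq_of_crit hcP hRP (hfd n)
      rw [h3] at h6
      rw [hf1] at h7
      have h8 := A.X_add ((B.map (Int.cast : ℤ → ℝ)).mulVec (f n₀)) ((-1 : ℝ) • f n) (x n)
      rw [A.X_smul (-1) (f n) (x n), h6, h7, neg_one_smul ℝ (f n), ← sub_eq_add_neg] at h8
      rw [h8]
      show (1:ℝ) • _ + (-1:ℝ) • ((1:ℝ) • _) = _
      rw [neg_one_smul, add_neg_cancel]
    refine ⟨B.mulVec (k n₀), ?_⟩
    rw [← h5]
    show (B.map (Int.cast : ℤ → ℝ)).mulVec (b n₀ • κ n₀) = _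
    rw [Matrix.mulVec_smul]
    congr 1
    ext l
    simp [Matrix.mulVec, dotProduct, hκ]
  -- finitely many frequencies
  have hbpos : 0 < |b n₀| := abs_pos.2 (hb0 n₀)
  obtain ⟨L, hL⟩ := exists_nat_ge (((‖w‖ + 1) / μ) / |b n₀|)
  have hfinK : (Icc (fun _ : Fin m => -(L:ℤ)) (fun _ => (L:ℤ))).Finite := Set.finite_Icc _ _
  have hfinf : (f '' S).Finite := by
    refine (hfinK.image (fun (k' : Fin m → ℤ) =>
      (b n₀ • (fun l => (k' l : ℝ)) : Fin m → ℝ))).subset ?_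
    rintro _ ⟨n, hn, rfl⟩
    obtain ⟨k', hk'⟩ := hfB n hn
    refine ⟨k', ?_, hk'.symm⟩
    have h7 := hfb n
    rw [hk', norm_smul, Real.norm_eq_abs] at h7
    have h8 : ‖(fun l => ((k' l : ℤ) : ℝ))‖ ≤ L := by
      refine le_trans ?_ hL
      rw [le_div_iff₀ hbpos]
      linarith
    have h9 : ∀ l, |((k' l : ℤ) : ℝ)| ≤ L := fun l => by
      have := norm_le_pi_norm (fun l => ((k' l : ℤ) : ℝ)) l
      rw [Real.norm_eq_abs] at this
      exact this.trans h8
    constructor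
    · intro l
      have := (abs_le.1 (h9 l)).1
      exact_mod_cast this
    · intro l
      have := (abs_le.1 (h9 l)).2
      exact_mod_cast this
  -- one frequency infinitely often
  obtain ⟨_, ⟨n₁, hn₁, rfl⟩, hinf⟩ : ∃ y ∈ f '' S, (S ∩ f ⁻¹' {y}).Infinite := by
    by_contra hcon
    push Not at hcon
    apply hC₀'
    have h1 : S ⊆ ⋃ y ∈ f '' S, (S ∩ f ⁻¹' {y}) := by
      intro n hn
      simp only [mem_iUnion]
      exact ⟨f n, ⟨n, hn, rfl⟩, hn, rfl⟩
    exact (hfinf.biUnion fun y hy => hcon y hy).subset h1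
  obtain ⟨k', hk'⟩ := hfB n₁ hn₁
  -- `w` is in the line
  have hline : w ∈ Submodule.span ℝ {f n₁} := by
    have hclosed : IsClosed ((Submodule.span ℝ {f n₁} : Submodule ℝ (Fin m → ℝ)) :
        Set (Fin m → ℝ)) := Submodule.closed_of_finiteDimensional _
    rw [← SetLike.mem_coe, ← hclosed.closure_eq, Metric.mem_closure_iff]
    intro ε hε
    obtain ⟨j, hj⟩ := exists_nat_gt (1 / ε)
    obtain ⟨n, hn, hjn⟩ := hinf.exists_gt j
    refine ⟨v n, ?_, ?_⟩
    · have h1 : v n = H n • f n₁ := by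
        have h2 : f n = f n₁ := hn.2
        rw [← h2, hf', smul_smul, mul_inv_cancel₀ (hH0 n), one_smul]
      rw [h1]
      exact Submodule.smul_mem _ _ (Submodule.mem_span_singleton_self _)
    · rw [dist_comm, dist_eq_norm]
      refine (hks n).trans_le ?_
      rw [div_le_iff₀ (by positivity)]
      have h3 : (j:ℝ) < n := by exact_mod_cast hjn
      have h4 : 1 / ε < (n:ℝ) + 1 := by linarith
      rw [div_lt_iff₀ hε] at h4
      linarith
  obtain ⟨a, ha⟩ := Submodule.mem_span_singleton.1 hline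
  refine hirr k' (a * b n₀) ?_
  rw [← ha, hk', smul_smul]

end Pool.Agent.U924.Wex
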