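import Mathlib
import Pool.Agent.U924.Wex.Main

/-! The stabiliser of a real momentum, and saturation. -/

open scoped Topology ContDiff Manifold
open Set Metric Bundle Pool.Agent.Helper186 Pool.Agent.H826R2.Wein Pool.Agent.TH607
  Pool.Agent.R775

noncomputable section

namespace Pool.Agent.U924.Wex

set_option linter.unusedSectionVars false

universe u

variable {E : Type u} [NormedAddCommGroup E] [NormedSpace ℝ E] [FiniteDimensional ℝ E]
  {M : Type*} [TopologicalSpace M] [ChartedSpace E M] [IsManifold 𝓘(ℝ, E) ∞ M]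
  {P : Type*} [TopologicalSpace P] [ChartedSpace E P] [IsManifold 𝓘(ℝ, E) ∞ P]
  {m : ℕ} {q : P → M} {Γ : Type*} [Group Γ] [MulAction Γ P]
  {α : (x : M) → TangentSpace 𝓘(ℝ, E) x →L[ℝ] ℝ}
  {R : (x : M) → TangentSpace 𝓘(ℝ, E) x}

/-- The deck transformation `γ` acts on the torus by an integer matrix which maps `w` to `κ`. -/
def Mv (act : (Fin m → ℝ) → P → P) (γ : Γ) (w κ : Fin m → ℝ) : Prop :=
  ∃ B : Matrix (Fin m) (Fin m) ℤ,
    (∀ (θ : Fin m → ℝ) (x : P), γ • act θ x = act ((re B).mulVec θ) (γ • x)) ∧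
    κ = (re B).mulVec w

lemma re_one : re (1 : Matrix (Fin m) (Fin m) ℤ) = 1 := Matrix.map_one _ (by simp) (by simp)

lemma re_mul (B C : Matrix (Fin m) (Fin m) ℤ) : re (B * C) = re B * re C := by
  ext i j
  simp [Matrix.mul_apply]

lemma re_sub (B C : Matrix (Fin m) (Fin m) ℤ) : re (B - C) = re B - re C := by
  ext i j
  simp

lemma re_add (B C : Matrix (Fin m) (Fin m) ℤ) : re (B + C) = re B + re C := by
  ext i j
  simp

/-- the deck transformations which fix `w` -/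
def stabW {A : TS (pullForm 𝓘(ℝ, E) 𝓘(ℝ, E) q α) m} (hN : A.Norm Γ) (w : Fin m → ℝ) :
    Subgroup Γ where
  carrier := {γ | Mv A.act γ w w}
  one_mem' := ⟨1, fun θ x => by rw [one_smul, one_smul, re_one, Matrix.one_mulVec],
    by rw [re_one, Matrix.one_mulVec]⟩
  mul_mem' := by
    rintro γ γ' ⟨B, hB, hBw⟩ ⟨B', hB', hBw'⟩
    refine ⟨B * B', fun θ x => ?_, ?_⟩
    · rw [mul_smul, hB', hB, mul_smul, re_mul, Matrix.mulVec_mulVec]
    · rw [re_mul, ← Matrix.mulVec_mulVec, ← hBw', ← hBw]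
  inv_mem' := by
    rintro γ ⟨B, hB, hBw⟩
    obtain ⟨B', hB'⟩ := hN.norm γ⁻¹
    have h1 : ∀ (θ : Fin m → ℝ) (x : P), A.act ((re (B' * B)).mulVec θ) x = A.act θ x := by
      intro θ x
      have h2 : γ⁻¹ • γ • A.act θ x = A.act θ x := inv_smul_smul _ _
      rw [hB, hB', inv_smul_smul] at h2
      rw [re_mul, ← Matrix.mulVec_mulVec]
      exact h2
    have h3 : ∀ (θ : Fin m → ℝ) (x : P), A.act ((re (1 - B' * B)).mulVec θ) x = x := by
      intro θ x
      rw [re_sub, re_one, Matrix.sub_mulVec, Matrix.one_mulVec, sub_eq_add_neg, A.add]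
      have h4 := h1 (-θ) x
      rw [Matrix.mulVec_neg] at h4
      rw [h4, ← A.add, add_neg_cancel, A.zero]
    refine ⟨B' + (1 - B' * B), fun θ x => ?_, ?_⟩
    · rw [hB' θ x, re_add, Matrix.add_mulVec, A.add]
      show A.act ((re B').mulVec θ) (γ⁻¹ • x) = _
      rw [h3]
    · rw [re_add, re_sub, re_one, re_mul, Matrix.add_mulVec, Matrix.sub_mulVec, Matrix.one_mulVec,
        ← Matrix.mulVec_mulVec, ← hBw]
      abel

lemma mem_stabW {A : TS (pullForm 𝓘(ℝ, E) 𝓘(ℝ, E) q α) m} {hN : A.Norm Γ} {w : Fin m → ℝ}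
    {γ : Γ} : γ ∈ stabW hN w ↔ Mv A.act γ w w := Iff.rfl

/-- equivariance of the momenta -/
lemma H_eqv (hq : RegCover (E := E) q Γ) (A : TS (pullForm 𝓘(ℝ, E) 𝓘(ℝ, E) q α) m)
    {γ : Γ} {B : Matrix (Fin m) (Fin m) ℤ}
    (hB : ∀ (θ : Fin m → ℝ) (x : P), γ • A.act θ x = A.act ((re B).mulVec θ) (γ • x))
    (κ : Fin m → ℝ) (x : P) : A.H ((re B).mulVec κ) (γ • x) = A.H κ x := by
  refine A.H_push (κ := κ) (κ' := (re B).mulVec κ) (g := fun x => γ • x) (hq.smooth γ) ?_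
    (hq.strict α γ) x
  intro t x
  show γ • A.act (t • κ) x = A.act (t • (re B).mulVec κ) (γ • x)
  rw [hB, Matrix.mulVec_smul]

lemma X_eqv (hq : RegCover (E := E) q Γ) (A : TS (pullForm 𝓘(ℝ, E) 𝓘(ℝ, E) q α) m)
    {γ : Γ} {B : Matrix (Fin m) (Fin m) ℤ}
    (hB : ∀ (θ : Fin m → ℝ) (x : P), γ • A.act θ x = A.act ((re B).mulVec θ) (γ • x))
    (κ : Fin m → ℝ) (x : P) (h0 : (A.X κ x : E) = 0) :
    (A.X ((re B).mulVec κ) (γ • x) : E) = 0 := by
  have h := A.push_X (κ := κ) (κ' := (re B).mulVec κ) (g := fun x => γ • x) (hq.smooth γ) (by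
    intro t x
    show γ • A.act (t • κ) x = A.act (t • (re B).mulVec κ) (γ • x)
    rw [hB, Matrix.mulVec_smul]) x
  rw [← h, h0]
  exact map_zero (mfderiv 𝓘(ℝ, E) 𝓘(ℝ, E) (fun x : P => γ • x) x)

/-- a path in the superlevel set starting in `U` stays in `U` -/
lemma path_mem {f : P → ℝ} (hf : Continuous f) {U : Set P} (hU : IsOpen U) {c : ℝ}
    (hfr : ∀ x ∈ frontier U, f x ≤ c) {g : ℝ → P} {a b : ℝ} (hab : a ≤ b)
    (hg : ContinuousOn g (Icc a b)) (ha : g a ∈ U) (hc : ∀ t ∈ Icc a b, c < f (g t)) :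
    g b ∈ U := by
  have hpre : IsPreconnected (g '' Icc a b) := isPreconnected_Icc.image g hg
  by_contra hb
  have h1 := hpre.subset_or_subset (u := U) (v := (closure U)ᶜ) hU isClosed_closure.isOpen_compl
    (disjoint_compl_right.mono_left subset_closure) (by
      rintro _ ⟨t, ht, rfl⟩
      by_cases h : g t ∈ U
      · exact Or.inl h
      · right
        intro h2
        have h3 : g t ∈ frontier U := by
          rw [hU.frontier_eq]; exact ⟨h2, h⟩
        exact absurd (hfr _ h3) (not_le.2 (hc t ht)))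
  rcases h1 with h1 | h1
  · exact hb (h1 ⟨b, right_mem_Icc.2 hab, rfl⟩)
  · exact h1 ⟨a, left_mem_Icc.2 hab, rfl⟩ (subset_closure ha)

/-- **Saturation.** -/
theorem closed_orbits_sat (hα : IsContact α) (hR : IsReeb α R) (hq : RegCover (E := E) q Γ)
    {A : TS (pullForm 𝓘(ℝ, E) 𝓘(ℝ, E) q α) m} (hN : A.Norm Γ) {w : Fin m → ℝ}
    {U K : Set P} {c : ℝ} (hU : IsOpen U) (hne : U.Nonempty) (hUc : ∀ x ∈ U, c < A.H w x)
    (hUf : ∀ x ∈ frontier U, A.H w x ≤ c) (hK : IsCompact K)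
    (hUK : ∀ x ∈ U, ∃ γ : Γ, Mv A.act γ w w ∧ γ • x ∈ K)
    (hnz : ∀ x ∈ U, A.H w x = 0 → (A.X w x : E) ≠ 0) :
    {C : Set M | ClosedIn R (q '' U) C}.Nonempty ∧
      ((∀ x ∈ U, ∀ κ : Fin m → ℝ, (A.X κ x : E) = 0 → κ = 0) →
        (∀ (k : Fin m → ℤ) (a : ℝ), w ≠ a • (fun i => (k i : ℝ))) →
        {C : Set M | ClosedIn R (q '' U) C}.Infinite) := by
  have : LocallyConnectedSpace P := ChartedSpace.locallyConnectedSpace E P
  have hcP := hq.isContact_pull hα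
  have hHc : Continuous (A.H w) := (A.smooth_H hcP.smooth w).continuous
  have hinv : ∀ δ ∈ stabW hN w, ∀ x, A.H w (δ • x) = A.H w x := by
    rintro δ ⟨B, hB, hBw⟩ x
    exact H_inv hq A hB hBw.symm x
  have hsc : ∀ γ : Γ, Continuous (fun x : P => γ • x) := fun γ => (hq.smooth γ).continuous
  set N : Set P := {x | ∃ δ ∈ stabW hN w, δ • x ∈ U} with hNdef
  have hNo : IsOpen N := by
    have e : N = ⋃ δ ∈ stabW hN w, (fun x : P => δ • x) ⁻¹' U := by
      ext x; simp [hNdef]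
    rw [e]
    exact isOpen_biUnion fun δ _ => hU.preimage (hsc δ)
  have hIso : Iso q α A w (stabW hN w) N K c := by
    refine ⟨?_, hNo, ?_, ?_, ?_, ?_, hK, ?_, ?_⟩
    · rintro δ ⟨B, hB, hBw⟩
      exact ⟨B, hB, hBw.symm⟩
    · obtain ⟨x, hx⟩ := hne
      exact ⟨x, 1, one_mem _, by rwa [one_smul]⟩
    · rintro δ hδ x ⟨δ', hδ', hx⟩
      refine ⟨δ' * δ⁻¹, mul_mem hδ' (inv_mem hδ), ?_⟩
      rw [mul_smul, inv_smul_smul]
      exact hx
    · rintro x ⟨δ, hδ, hx⟩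
      rw [← hinv δ hδ x]
      exact hUc _ hx
    · intro x hx
      by_contra hxc
      push Not at hxc
      rw [hNo.frontier_eq] at hx
      have h1 : A.H w ⁻¹' Ioi c ∈ 𝓝 x := hHc.continuousAt.preimage_mem_nhds (Ioi_mem_nhds hxc)
      obtain ⟨O, hO, hxO, hOo, hOc⟩ : ∃ O : Set P, O ⊆ A.H w ⁻¹' Ioi c ∧ x ∈ O ∧ IsOpen O ∧
          IsPreconnected O := by
        obtain ⟨V, hV, hVo, hxV, hVc⟩ := locallyConnectedSpace_iff_subsets_isOpen_isConnected.1 this x _ h1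
        exact ⟨V, hV, hxV, hVo, hVc.isPreconnected⟩
      obtain ⟨z, hzO, δ, hδ, hz⟩ := mem_closure_iff.1 hx.1 O hOo hxO
      have h2 : IsPreconnected ((fun y : P => δ • y) '' O) := hOc.image _ (hsc δ).continuousOn
      have h3 := h2.subset_or_subset (u := U) (v := (closure U)ᶜ) hU
        isClosed_closure.isOpen_compl (disjoint_compl_right.mono_left subset_closure) (by
          rintro _ ⟨y, hy, rfl⟩
          by_cases h : δ • y ∈ U
          · exact Or.inl h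
          · right
            intro h4
            have h5 : δ • y ∈ frontier U := by
              rw [hU.frontier_eq]; exact ⟨h4, h⟩
            have h6 := hUf _ h5
            rw [hinv δ hδ y] at h6
            exact absurd h6 (not_le.2 (hO hy)))
      rcases h3 with h3 | h3
      · exact hx.2 ⟨δ, hδ, h3 ⟨x, hxO, rfl⟩⟩
      · exact h3 ⟨z, hzO, rfl⟩ (subset_closure hz)
    · rintro x ⟨δ, hδ, hx⟩
      obtain ⟨γ, hγ, hγK⟩ := hUK _ hx
      exact ⟨γ * δ, mul_mem (mem_stabW.2 hγ) hδ, by rw [mul_smul]; exact hγK⟩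
    · rintro x ⟨δ, hδ, hx⟩ h0 hX
      obtain ⟨B, hB, hBw⟩ := mem_stabW.1 hδ
      apply hnz _ hx (by rw [hinv δ hδ, h0])
      have := X_eqv hq A hB w x hX
      rwa [← hBw] at this
  have himg : q '' N = q '' U := by
    ext z
    constructor
    · rintro ⟨x, ⟨δ, hδ, hx⟩, rfl⟩
      exact ⟨_, hx, hq.proj_smul δ x⟩
    · rintro ⟨x, hx, rfl⟩
      exact ⟨x, ⟨1, one_mem _, by rwa [one_smul]⟩, rfl⟩
  obtain ⟨h1, h2⟩ := closed_orbits hα hR hq hN hIso
  rw [himg] at h1 h2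
  refine ⟨h1, fun hfree => h2 ?_⟩
  rintro x ⟨δ, hδ, hx⟩ κ hκ
  obtain ⟨B, hB, hBw⟩ := mem_stabW.1 hδ
  have h3 := hfree _ hx _ (X_eqv hq A hB κ x hκ)
  obtain ⟨B', hB', -⟩ := mem_stabW.1 (inv_mem hδ)
  -- `B' B = 1`
  have h4 : ∀ θ : Fin m → ℝ, (re (B' * B)).mulVec θ - θ = 0 := by
    intro θ
    apply hfree _ hx
    have h5 : ∀ t : ℝ, A.act (t • ((re (B' * B)).mulVec θ - θ)) (δ • x) = δ • x := by
      intro t
      have h6 : δ⁻¹ • δ • A.act (t • θ) (δ • x) = A.act (t • θ) (δ • x) := inv_smul_smul _ _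
      rw [hB, hB', inv_smul_smul, Matrix.mulVec_mulVec, ← re_mul, Matrix.mulVec_smul] at h6
      rw [smul_sub, sub_eq_add_neg, add_comm, A.add, h6, ← A.add, neg_add_cancel, A.zero]
    have h7 := A.hasMFDerivAt_fam_zero ((re (B' * B)).mulVec θ - θ) (δ • x)
    have h8 : (fun t : ℝ => A.fam ((re (B' * B)).mulVec θ - θ) (t, δ • x)) = fun _ => δ • x :=
      funext h5
    rw [h8] at h7
    have h9 := hasMFDerivAt_unique h7 (hasMFDerivAt_const (δ • x) (0:ℝ))
    have h10 := DFunLike.congr_fun h9 (1:ℝ)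
    have h11 : (1:ℝ) • (A.X ((re (B' * B)).mulVec θ - θ) (δ • x) : E) = 0 := h10
    rwa [one_smul] at h11
  have h5 := h4 κ
  rw [re_mul, ← Matrix.mulVec_mulVec, h3, Matrix.mulVec_zero, zero_sub, neg_eq_zero] at h5
  exact h5

end Pool.Agent.U924.Wex
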