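import Mathlib
import Pool.Agent.U924.Wex.Stab

/-! Boundedness of the momentum and local finiteness of the monodromy orbit imply compactness
modulo the stabiliser. -/

open scoped Topology ContDiff Manifold
open Set Metric Bundle Pool.Agent.Helper186 Pool.Agent.H826R2.Wein Pool.Agent.TH607
  Pool.Agent.R775

noncomputable section

namespace Pool.Agent.U924.Wex

set_option linter.unusedSectionVars false

universe u

variable {E : Type u} [NormedAddCommGroup E] [NormedSpace ℝ E] [FiniteDimensional ℝ E]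
  {M : Type*} [TopologicalSpace M] [ChartedSpace E M] [IsManifold 𝓘(ℝ, E) ∞ M]
  {P : Type*} [TopologicalSpace P] [ChartedSpace E P] [IsManifold 𝓘(ℝ, E) ∞ P]
  {m : ℕ} {q : P → M} {Γ : Type*} [Group Γ] [MulAction Γ P]
  {α : (x : M) → TangentSpace 𝓘(ℝ, E) x →L[ℝ] ℝ}
  {R : (x : M) → TangentSpace 𝓘(ℝ, E) x}

/-- the impossible situation -/
def Far (A : TS (pullForm 𝓘(ℝ, E) 𝓘(ℝ, E) q α) m) (Γ : Type*) [Group Γ] [MulAction Γ P]
    (w : Fin m → ℝ) (U : Set P) (C : ℝ) (p : P × (Fin m → ℝ)) : Prop :=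
  ∀ t > C, ∀ (γ : Γ) (B : Matrix (Fin m) (Fin m) ℤ) (x : P),
    (∀ (θ : Fin m → ℝ) (x : P), γ • A.act θ x = A.act ((re B).mulVec θ) (γ • x)) → x ∈ U →
    γ • x = p.1 → (re B).mulVec w = t • p.2 → False

lemma local_bound (hα : IsContact α) (hq : RegCover (E := E) q Γ)
    (A : TS (pullForm 𝓘(ℝ, E) 𝓘(ℝ, E) q α) m) {w : Fin m → ℝ}
    {U : Set P} {c L : ℝ} (hU : IsOpen U) (hUc : ∀ x ∈ U, c < A.H w x)
    (hUf : ∀ x ∈ frontier U, A.H w x ≤ c) (hUL : ∀ x ∈ U, A.H w x ≤ L) {y : P} {u : Fin m → ℝ}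
    (hcr : A.H u y = 0 → dForm 𝓘(ℝ, E) (A.H u) y ≠ 0) :
    ∃ C : ℝ, ∀ᶠ p in 𝓝 (y, u), Far A Γ w U C p := by
  have hcP := hq.isContact_pull hα
  have hHc : ∀ κ, Continuous (A.H κ) := fun κ => (A.smooth_H hcP.smooth κ).continuous
  have hmuc : Continuous (muS A) := (contMDiff_muS A hcP.smooth).continuous
  by_cases h0 : A.H u y = 0
  swap
  · -- the momentum is not zero
    set δ := |A.H u y| / 2 with hδ
    have hδ0 : 0 < δ := by have := abs_pos.2 h0; positivity
    refine ⟨max 0 ((|c| + |L|) / δ), ?_⟩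
    have h1 : Continuous (fun p : P × (Fin m → ℝ) => A.H p.2 p.1) := by
      have e : (fun p : P × (Fin m → ℝ) => A.H p.2 p.1) =
          fun p => ∑ i, p.2 i * muS A p.1 i := by
        ext1 p; exact HS_eq_sum A _ _
      rw [e]
      fun_prop
    have h2 : ∀ᶠ p in 𝓝 (y, u), δ < |A.H p.2 p.1| := by
      refine (h1.abs.continuousAt (x := (y, u))).eventually (p := fun r => δ < r) (lt_mem_nhds ?_)
      show |A.H u y| / 2 < |A.H u y|
      have := abs_pos.2 h0
      linarith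
    filter_upwards [h2] with p hp t ht γ B x hB hx hxp hw
    have ht0 : 0 < t := (le_max_left _ _).trans_lt ht
    have ht1 : (|c| + |L|) / δ < t := (le_max_right _ _).trans_lt ht
    have h3 : A.H w x = t * A.H p.2 p.1 := by
      rw [← H_eqv hq A hB w x, hw, hxp, A.H_smul]
    have h4 : |A.H w x| ≤ |c| + |L| := by
      have h5 := hUc x hx
      have h6 := hUL x hx
      rw [abs_le]
      constructor
      · have := neg_abs_le c
        have := abs_nonneg L
        linarith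
      · have := le_abs_self L
        have := abs_nonneg c
        linarith
    rw [h3, abs_mul, abs_of_pos ht0] at h4
    rw [div_lt_iff₀ hδ0] at ht1
    have := mul_lt_mul_of_pos_left hp ht0
    linarith
  · -- the momentum is not critical
    have hd := hcr h0
    set φ := extChartAt 𝓘(ℝ, E) y with hφ
    set z₀ : E := φ y with hz₀
    set F : E → Fin m → ℝ := muS A ∘ φ.symm with hF
    have hHF : ∀ v, A.H v ∘ φ.symm = fun z => ∑ i, v i * F z i := fun v => by
      ext1 z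
      exact HS_eq_sum A v (φ.symm z)
    have hsymm : ContMDiffAt 𝓘(ℝ, E) 𝓘(ℝ, E) ∞ φ.symm z₀ :=
      (contMDiffOn_extChartAt_symm y).contMDiffAt (extChartAt_target_mem_nhds y)
    have hsz : φ.symm z₀ = y := extChartAt_to_inv y
    have hFs : ContDiffAt ℝ ∞ F z₀ :=
      ((contMDiff_muS A hcP.smooth).contMDiffAt.comp z₀ hsymm).contDiffAt
    have hFs1 : ContDiffAt ℝ 1 F z₀ := hFs.of_le (by simp)
    have hev : ∀ᶠ z in 𝓝 z₀, ContDiffAt ℝ 1 F z := hFs1.eventually (by simp)
    -- the direction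
    have hder : ∀ (v : Fin m → ℝ) (z : E), DifferentiableAt ℝ F z →
        HasFDerivAt (fun z => ∑ i, v i * F z i)
          (∑ i, v i • (ContinuousLinearMap.proj (R := ℝ) (φ := fun _ : Fin m => ℝ) i).comp
            (fderiv ℝ F z)) z := by
      intro v z hz
      have h1 : ∀ i ∈ (Finset.univ : Finset (Fin m)), HasFDerivAt (fun z => v i * F z i)
          (v i • (ContinuousLinearMap.proj (R := ℝ) (φ := fun _ : Fin m => ℝ) i).comp
            (fderiv ℝ F z)) z := by
        intro i _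
        have h2 : HasFDerivAt (fun z => F z i)
            ((ContinuousLinearMap.proj (R := ℝ) (φ := fun _ : Fin m => ℝ) i).comp
            (fderiv ℝ F z)) z := (hasFDerivAt_pi'.1 hz.hasFDerivAt) i
        exact h2.const_mul (v i)
      exact HasFDerivAt.fun_sum h1
    set g : (Fin m → ℝ) → E → E → ℝ := fun v z e => ∑ i, v i * fderiv ℝ F z e i with hg
    have hdu : ∃ e : E, g u z₀ e ≠ 0 := by
      by_contra hcon
      push Not at hcon
      apply hd
      have h1 := dForm_eq_fderiv (A.smooth_H hcP.smooth u) y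
      have h2 : (dForm 𝓘(ℝ, E) (A.H u) y : E →L[ℝ] ℝ) = 0 := by
        rw [h1, ← hφ, hHF, (hder u z₀ (hFs1.differentiableAt (by simp))).fderiv]
        refine ContinuousLinearMap.ext fun e => ?_
        have := hcon e
        show _ = (0:ℝ)
        simpa [hg] using this
      exact h2
    obtain ⟨e, he⟩ : ∃ e : E, 0 < g u z₀ e := by
      obtain ⟨e, he⟩ := hdu
      rcases lt_or_gt_of_ne he with h1 | h1
      · refine ⟨-e, ?_⟩
        have : g u z₀ (-e) = - g u z₀ e := by simp [hg]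
        rw [this]; linarith
      · exact ⟨e, h1⟩
    set δ := g u z₀ e / 2 with hδ
    have hδ0 : 0 < δ := by positivity
    have hgc : ContinuousAt (fun p : (Fin m → ℝ) × E => g p.1 p.2 e) (u, z₀) := by
      have h1 : ContinuousAt (fun z => fderiv ℝ F z) z₀ :=
        (hFs1.fderiv_right (m := 0) (by simp)).continuousAt
      have h2 : ContinuousAt (fun p : (Fin m → ℝ) × E => fderiv ℝ F p.2 e) (u, z₀) := by
        have h3 : ContinuousAt (fun p : (Fin m → ℝ) × E => fderiv ℝ F p.2) (u, z₀) :=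
          ContinuousAt.comp (x := ((u, z₀) : (Fin m → ℝ) × E)) (f := Prod.snd) h1 continuousAt_snd
        exact h3.clm_apply continuousAt_const
      have h3 : ∀ i, ContinuousAt (fun p : (Fin m → ℝ) × E => p.1 i * fderiv ℝ F p.2 e i) (u, z₀) := by
        intro i
        have h4 : ContinuousAt (fun p : (Fin m → ℝ) × E => fderiv ℝ F p.2 e i) (u, z₀) :=
          (continuous_apply i).continuousAt.comp h2
        have h5 : ContinuousAt (fun p : (Fin m → ℝ) × E => p.1 i) (u, z₀) := by fun_prop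
        exact h5.mul h4
      exact tendsto_finsetSum _ fun i _ => h3 i
    have hgev : ∀ᶠ p in 𝓝 ((u, z₀) : (Fin m → ℝ) × E), δ < g p.1 p.2 e := by
      refine hgc.eventually (p := fun r => δ < r) (lt_mem_nhds ?_)
      show g u z₀ e / 2 < g u z₀ e
      linarith
    have hall : ∀ᶠ p in 𝓝 ((u, z₀) : (Fin m → ℝ) × E),
        δ < g p.1 p.2 e ∧ p.2 ∈ φ.target ∧ ContDiffAt ℝ 1 F p.2 := by
      have h0 : ∀ᶠ z in 𝓝 z₀, z ∈ φ.target ∧ ContDiffAt ℝ 1 F z :=
        Filter.Eventually.and (extChartAt_target_mem_nhds y) hev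
      have h1 : ∀ᶠ p in 𝓝 ((u, z₀) : (Fin m → ℝ) × E), p.2 ∈ φ.target ∧ ContDiffAt ℝ 1 F p.2 :=
        (continuousAt_snd (p := ((u, z₀) : (Fin m → ℝ) × E))).eventually h0
      exact hgev.and h1
    obtain ⟨ρ, hρ, hball⟩ := Metric.eventually_nhds_iff_ball.1 hall
    set s₁ : ℝ := ρ / (2 * (‖e‖ + 1)) with hs₁
    have hs0 : 0 < s₁ := by positivity
    have hse : s₁ * ‖e‖ < ρ / 2 := by
      rw [hs₁, div_mul_eq_mul_div, div_lt_div_iff₀ (by positivity) (by positivity)]
      nlinarith [norm_nonneg e]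
    refine ⟨max 0 ((L - c) / (δ * s₁)), ?_⟩
    have hsrc : ∀ᶠ p in 𝓝 (y, u), p.1 ∈ φ.source ∧ φ p.1 ∈ ball z₀ (ρ / 2) ∧ p.2 ∈ ball u ρ := by
      refine Filter.Eventually.and ?_ (Filter.Eventually.and ?_ ?_)
      · exact continuousAt_fst.eventually (extChartAt_source_mem_nhds y)
      · have h1 : ContinuousAt (fun p : P × (Fin m → ℝ) => φ p.1) (y, u) :=
          ContinuousAt.comp (x := (y, u)) (f := Prod.fst) (continuousAt_extChartAt y)
            continuousAt_fst
        exact h1.eventually (ball_mem_nhds _ (by positivity))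
      · exact continuousAt_snd.eventually (ball_mem_nhds _ hρ)
    filter_upwards [hsrc] with p hp t ht γ B x hB hx hxp hw
    obtain ⟨hp1, hp2, hp3⟩ := hp
    have ht0 : 0 < t := (le_max_left _ _).trans_lt ht
    have ht1 : (L - c) / (δ * s₁) < t := (le_max_right _ _).trans_lt ht
    set z : ℝ → E := fun s => φ p.1 + s • e with hz
    have hzball : ∀ s ∈ Icc (0:ℝ) s₁, (p.2, z s) ∈ ball ((u, z₀) : (Fin m → ℝ) × E) ρ := by
      intro s hs
      rw [mem_ball, Prod.dist_eq, max_lt_iff]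
      refine ⟨hp3, ?_⟩
      rw [mem_ball, dist_eq_norm] at hp2
      rw [dist_eq_norm]
      have e1 : z s - z₀ = (φ p.1 - z₀) + s • e := by simp only [hz]; abel
      show ‖z s - z₀‖ < ρ
      rw [e1]
      have h2 : ‖s • e‖ ≤ s₁ * ‖e‖ := by
        rw [norm_smul, Real.norm_eq_abs, abs_of_nonneg hs.1]
        exact mul_le_mul_of_nonneg_right hs.2 (norm_nonneg _)
      calc _ ≤ ‖φ p.1 - z₀‖ + ‖s • e‖ := norm_add_le _ _
        _ < ρ / 2 + ρ / 2 := by linarith
        _ = ρ := by ring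
    set h : ℝ → ℝ := fun s => ∑ i, p.2 i * F (z s) i with hh
    have hhd : ∀ s ∈ Icc (0:ℝ) s₁, HasDerivAt h (g p.2 (z s) e) s := by
      intro s hs
      obtain ⟨-, -, h3⟩ := hball _ (hzball s hs)
      have h4 := hder p.2 (z s) (h3.differentiableAt (by simp))
      have h5 : HasDerivAt z e s := by
        have := ((hasDerivAt_id s).smul_const e).const_add (φ p.1)
        simpa [hz] using this
      have h6 := h4.comp_hasDerivAt s h5
      refine h6.congr_deriv ?_
      simp only [hg, _root_.sum_apply, _root_.smul_apply,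
        ContinuousLinearMap.comp_apply, ContinuousLinearMap.proj_apply, smul_eq_mul]
    have hgrow : ∀ s ∈ Icc (0:ℝ) s₁, δ * s ≤ h s - h 0 := by
      intro s hs
      have h1 := Convex.mul_sub_le_image_sub_of_le_deriv (convex_Icc (0:ℝ) s₁) (f := h) (C := δ)
        (fun s hs => (hhd s hs).continuousAt.continuousWithinAt)
        (fun s hs => (hhd s (interior_subset hs)).differentiableAt.differentiableWithinAt)
        (fun s hs => by
          rw [(hhd s (interior_subset hs)).deriv]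
          exact (hball _ (hzball s (interior_subset hs))).1.le)
        0 (left_mem_Icc.2 hs0.le) s hs hs.1
      simpa using h1
    set pth : ℝ → P := fun s => γ⁻¹ • φ.symm (z s) with hpth
    have hHp : ∀ s, A.H w (pth s) = t * h s := by
      intro s
      rw [← H_eqv hq A hB w (pth s), hw, A.H_smul]
      congr 1
      show A.H p.2 (γ • γ⁻¹ • φ.symm (z s)) = _
      rw [smul_inv_smul]
      exact congrFun (hHF p.2) (z s)
    have hp0 : pth 0 = x := by
      show γ⁻¹ • φ.symm (φ p.1 + (0:ℝ) • e) = x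
      rw [zero_smul, add_zero, φ.left_inv hp1, ← hxp, inv_smul_smul]
    have hgt : ∀ s ∈ Icc (0:ℝ) s₁, A.H w x + t * (δ * s) ≤ A.H w (pth s) := by
      intro s hs
      rw [← hp0, hHp, hHp]
      have := mul_le_mul_of_nonneg_left (hgrow s hs) ht0.le
      linarith
    have hend : pth s₁ ∈ U := by
      refine path_mem (hHc w) hU hUf hs0.le ?_ (by rw [hp0]; exact hx) ?_
      · intro s hs
        have h3 : ContinuousAt φ.symm (z s) :=
          (continuousOn_extChartAt_symm y).continuousAt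
            ((isOpen_extChartAt_target y).mem_nhds (hball _ (hzball s hs)).2.1)
        have h4 : ContinuousAt z s := by
          have : Continuous z := by simp only [hz]; fun_prop
          exact this.continuousAt
        have h5 : ContinuousAt (fun s => φ.symm (z s)) s := ContinuousAt.comp (g := φ.symm) h3 h4
        exact ((hq.smooth γ⁻¹).continuous.continuousAt.comp h5).continuousWithinAt
      · intro s hs
        have h3 := hgt s hs
        have h4 := hUc x hx
        have h5 : 0 ≤ t * (δ * s) := mul_nonneg ht0.le (mul_nonneg hδ0.le hs.1)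
        linarith
    have h3 := hgt s₁ (right_mem_Icc.2 hs0.le)
    have h4 := hUL _ hend
    have h5 := hUc x hx
    rw [div_lt_iff₀ (by positivity)] at ht1
    linarith

/-- **Compactness modulo the stabiliser.** -/
theorem cover_of_bdd [CompactSpace M] (hα : IsContact α) (hR : IsReeb α R)
    (hq : RegCover (E := E) q Γ)
    {A : TS (pullForm 𝓘(ℝ, E) 𝓘(ℝ, E) q α) m} (hN : A.Norm Γ) {w : Fin m → ℝ}
    {U : Set P} {c L : ℝ} (hU : IsOpen U) (hUc : ∀ x ∈ U, c < A.H w x)
    (hUf : ∀ x ∈ frontier U, A.H w x ≤ c) (hUL : ∀ x ∈ U, A.H w x ≤ L)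
    (hfree : ∀ (x : P) (κ : Fin m → ℝ), (A.X κ x : E) = 0 → κ = 0)
    (hlf : ∀ r : ℝ, {κ : Fin m → ℝ | ‖κ‖ ≤ r ∧ ∃ γ : Γ, Mv A.act γ w κ}.Finite) :
    ∃ K : Set P, IsCompact K ∧ ∀ x ∈ U, ∃ γ : Γ, Mv A.act γ w w ∧ γ • x ∈ K := by
  have hcP := hq.isContact_pull hα
  have hRP := hq.isReeb_lift hα hR
  obtain ⟨D, hD, hDcov⟩ := (hq : RegCover (E := E) q Γ).exists_domain
  have hcr : ∀ (y : P) (u : Fin m → ℝ), u ∈ sphere (0 : Fin m → ℝ) 1 → A.H u y = 0 →
      dForm 𝓘(ℝ, E) (A.H u) y ≠ 0 := by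
    intro y u hu h0 hd
    have h1 := A.X_eq_of_crit hcP hRP hd
    rw [h0, zero_smul] at h1
    have h2 := hfree y u h1
    rw [h2] at hu
    simp at hu
  obtain ⟨C, hC⟩ : ∃ C : ℝ, ∀ p ∈ D ×ˢ sphere (0 : Fin m → ℝ) 1, Far A Γ w U C p := by
    refine (hD.prod (isCompact_sphere _ _)).induction_on
      (p := fun S => ∃ C : ℝ, ∀ p ∈ S, Far A Γ w U C p) ⟨0, by simp⟩ ?_ ?_ ?_
    · rintro S T hST ⟨C, hC⟩
      exact ⟨C, fun p hp => hC p (hST hp)⟩
    · rintro S T ⟨C, hC⟩ ⟨C', hC'⟩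
      refine ⟨max C C', ?_⟩
      rintro p (hp | hp) t ht
      · exact hC p hp t ((le_max_left _ _).trans_lt ht)
      · exact hC' p hp t ((le_max_right _ _).trans_lt ht)
    · rintro ⟨y, u⟩ hp
      obtain ⟨C, hC⟩ := local_bound (Γ := Γ) hα hq A hU hUc hUf hUL (hcr y u hp.2)
      exact ⟨_, mem_nhdsWithin_of_mem_nhds hC, C, fun p hp => hp⟩
  set S : Set (Fin m → ℝ) := {κ | ‖κ‖ ≤ max C 0 ∧ ∃ γ : Γ, Mv A.act γ w κ} with hS
  have hSf : S.Finite := hlf _
  have hγ : ∀ κ : Fin m → ℝ, ∃ γ : Γ, κ ∈ S → Mv A.act γ w κ := by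
    intro κ
    by_cases h : κ ∈ S
    · obtain ⟨γ, hγ⟩ := h.2
      exact ⟨γ, fun _ => hγ⟩
    · exact ⟨1, fun h' => absurd h' h⟩
  choose gm hgm using hγ
  refine ⟨⋃ κ ∈ S, (fun x : P => (gm κ)⁻¹ • x) '' D,
    hSf.isCompact_biUnion fun κ _ => hD.image (hq.smooth _).continuous, fun x hx => ?_⟩
  obtain ⟨γ, hγD⟩ := hDcov x
  obtain ⟨B, hB⟩ := hN.norm γ
  set κ := (re B).mulVec w with hκ
  have hκS : κ ∈ S := by
    refine ⟨?_, γ, B, hB, rfl⟩
    by_contra hcon
    push Not at hcon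
    have h1 : 0 < ‖κ‖ := (le_max_right _ _).trans_lt hcon
    refine hC (γ • x, ‖κ‖⁻¹ • κ) ⟨hγD, ?_⟩ ‖κ‖ ((le_max_left _ _).trans_lt hcon) γ B x hB hx rfl ?_
    · rw [mem_sphere_zero_iff_norm, norm_smul, norm_inv, norm_norm, inv_mul_cancel₀ h1.ne']
    · show κ = ‖κ‖ • ‖κ‖⁻¹ • κ
      rw [smul_smul, mul_inv_cancel₀ h1.ne', one_smul]
  obtain ⟨B₁, hB₁, hB₁w⟩ := hgm κ hκS
  obtain ⟨B', hB'⟩ := hN.norm (gm κ)⁻¹
  refine ⟨(gm κ)⁻¹ * γ, ⟨B' * B, fun θ x => ?_, ?_⟩, ?_⟩
  · rw [mul_smul, hB, mul_smul, re_mul, ← Matrix.mulVec_mulVec]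
    exact hB' _ _
  · -- `B' B₁ = 1`
    have h4 : ∀ θ : Fin m → ℝ, (re (B' * B₁)).mulVec θ - θ = 0 := by
      intro θ
      apply hfree x
      have h5 : ∀ t : ℝ, A.act (t • ((re (B' * B₁)).mulVec θ - θ)) x = x := by
        intro t
        have h6 : (gm κ)⁻¹ • (gm κ) • A.act (t • θ) x = A.act (t • θ) x := inv_smul_smul _ _
        have hB'2 := hB' ((re B₁).mulVec (t • θ)) ((gm κ) • x)
        rw [hB₁] at h6
        have h6' : A.act ((re B').mulVec ((re B₁).mulVec (t • θ))) ((gm κ)⁻¹ • (gm κ) • x) =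
          A.act (t • θ) x := hB'2.symm.trans h6
        rw [inv_smul_smul, Matrix.mulVec_mulVec, ← re_mul, Matrix.mulVec_smul] at h6'
        rw [smul_sub, sub_eq_add_neg, add_comm, A.add, h6', ← A.add, neg_add_cancel, A.zero]
      have h7 := A.hasMFDerivAt_fam_zero ((re (B' * B₁)).mulVec θ - θ) x
      have h8 : (fun t : ℝ => A.fam ((re (B' * B₁)).mulVec θ - θ) (t, x)) = fun _ => x :=
        funext h5
      rw [h8] at h7
      have h9 := hasMFDerivAt_unique h7 (hasMFDerivAt_const x (0:ℝ))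
      have h10 := DFunLike.congr_fun h9 (1:ℝ)
      have h11 : (1:ℝ) • (A.X ((re (B' * B₁)).mulVec θ - θ) x : E) = 0 := h10
      rwa [one_smul] at h11
    have h5 := h4 w
    rw [re_mul, ← Matrix.mulVec_mulVec] at h5 ⊢
    rw [← hκ, hB₁w]
    exact (sub_eq_zero.1 h5).symm
  · simp only [mem_iUnion]
    exact ⟨κ, hκS, γ • x, hγD, (mul_smul _ _ _).symm⟩

end Pool.Agent.U924.Wex
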