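import Mathlib
import Pool.Agent.U924.Wex.Bdd

/-! Isolated extrema of real momenta: the statement for local torus symmetries. -/

open scoped Topology ContDiff Manifold
open Set Metric Pool.Agent.Helper186 Pool.Agent.H826R2.WStmt Pool.Agent.TH607
  Pool.Agent.TH607.FxStmt Pool.Agent.R775

noncomputable section

namespace Pool.Agent.U924.Wex

set_option linter.unusedSectionVars false

/-- The map `x ↦ γ x` conjugates the torus action into itself by an integer matrix `B`,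
`γ (θ x) = (B θ) (γ x)`, and `B` maps the vector `w` to `κ`. -/
def Carries {P Γ : Type*} [Group Γ] [MulAction Γ P] {m : ℕ} (act : (Fin m → ℝ) → P → P) (γ : Γ)
    (w κ : Fin m → ℝ) : Prop :=
  ∃ B : Matrix (Fin m) (Fin m) ℤ,
    (∀ (θ : Fin m → ℝ) (x : P),
      γ • act θ x = act ((B.map (Int.cast : ℤ → ℝ)).mulVec θ) (γ • x)) ∧
    κ = (B.map (Int.cast : ℤ → ℝ)).mulVec w

variable {E : Type*} [NormedAddCommGroup E] [NormedSpace ℝ E] [FiniteDimensional ℝ E]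
  {M : Type*} [TopologicalSpace M] [ChartedSpace E M] [IsManifold 𝓘(ℝ, E) ∞ M]
  {P : Type*} [TopologicalSpace P] [ChartedSpace E P] [IsManifold 𝓘(ℝ, E) ∞ P]
  {Γ : Type*} [Group Γ] [MulAction Γ P]

theorem isolated_extrema
    (α : M → Cov E) (hα : IsContact α) (R : M → E) (hR : IsReeb α R)
    (q : P → M) (hq : IsQuotientMap E q Γ)
    {m : ℕ} (A : TorusSymmetry (pull (E := E) q α) m) (hA : Normalises Γ A.act)
    (w : Fin m → ℝ) (U : Set P) (hU : IsOpen U) (hne : U.Nonempty) (c : ℝ)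
    (hUc : ∀ x ∈ U, c < momentumAt A w x) (hUf : ∀ x ∈ frontier U, momentumAt A w x ≤ c)
    (hnz : ∀ x ∈ U, momentumAt A w x = 0 → fundVec A w x ≠ 0)
    (hcpt : (∃ K : Set P, IsCompact K ∧ ∀ x ∈ U, ∃ γ : Γ, Carries A.act γ w w ∧ γ • x ∈ K) ∨
      (CompactSpace M ∧ (∀ (x : P) (κ : Fin m → ℝ), fundVec A κ x = 0 → κ = 0) ∧
        (∀ r : ℝ, {κ : Fin m → ℝ | ‖κ‖ ≤ r ∧ ∃ γ : Γ, Carries A.act γ w κ}.Finite) ∧
        ∃ L : ℝ, ∀ x ∈ U, momentumAt A w x ≤ L)) :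
    {C : Set M | (∃ (c : ℝ → M) (T : ℝ), IsPeriodicOrbit R c T ∧ C = range c) ∧
      C ⊆ q '' U}.Nonempty ∧
    ((∀ x ∈ U, ∀ κ : Fin m → ℝ, fundVec A κ x = 0 → κ = 0) →
      (∀ (k : Fin m → ℤ) (a : ℝ), w ≠ a • (fun i => (k i : ℝ))) →
      {C : Set M | (∃ (c : ℝ → M) (T : ℝ), IsPeriodicOrbit R c T ∧ C = range c) ∧
        C ⊆ q '' U}.Infinite) := by
  have hq' : H826R2.Wein.RegCover (E := E) q Γ := hq.toWein
  have hN : A.toTS.Norm Γ := ⟨hq'.strict _, hA⟩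
  obtain ⟨K, hK, hUK⟩ : ∃ K : Set P, IsCompact K ∧ ∀ x ∈ U, ∃ γ : Γ,
      Carries A.act γ w w ∧ γ • x ∈ K := by
    rcases hcpt with h | ⟨hM, hfree, hlf, L, hL⟩
    · exact h
    · exact cover_of_bdd hα.toWein hR.toWein hq' hN hU hUc hUf hL hfree hlf
  have h := closed_orbits_sat hα.toWein hR.toWein hq' hN hU hne hUc hUf hK hUK hnz
  have e : ∀ C : Set M, ClosedIn (E := E) R (q '' U) C ↔
      ((∃ (c : ℝ → M) (T : ℝ), IsPeriodicOrbit R c T ∧ C = range c) ∧ C ⊆ q '' U) := by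
    intro C
    constructor
    · rintro ⟨⟨c, T, ⟨h2, h3, h4⟩, h5⟩, h6⟩
      exact ⟨⟨c, T, ⟨h2, h3, h4⟩, h5⟩, h6⟩
    · rintro ⟨⟨c, T, ⟨h2, h3, h4⟩, h5⟩, h6⟩
      exact ⟨⟨c, T, ⟨h2, h3, h4⟩, h5⟩, h6⟩
  have e' : {C : Set M | ClosedIn (E := E) R (q '' U) C} =
      {C : Set M | (∃ (c : ℝ → M) (T : ℝ), IsPeriodicOrbit R c T ∧ C = range c) ∧
        C ⊆ q '' U} := by
    ext C; exact e C
  rw [e'] at h
  exact h

end Pool.Agent.U924.Wex
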